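import Pool.Agent.Q88.SCD.PiFinal

/-!
MP_349854_an, Q1 (negative answer): a closed, convex, bounded SCD set whose relative weak topology
has no countable pi-base.
-/

namespace Pool.Agent.Results.MP_349854_an.NoPiBase

open Q88.SCD

theorem result :
    ∃ (X : Type) (_ : NormedAddCommGroup X) (_ : NormedSpace ℝ X) (_ : CompleteSpace X)
      (U : Set X), U.Nonempty ∧ IsClosed U ∧ Convex ℝ U ∧ Bornology.IsBounded U ∧ IsSCD U ∧
        ¬ HasCountablePiBase (weakSubset U) :=
  exists_scd_no_pi_base

end Pool.Agent.Results.MP_349854_an.NoPiBase
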